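import Pool.Agent.Run7.h23.Lo.App
import Pool.Agent.Run7.h23.Lo.Jac
import Pool.Agent.N352.JB.All

/-!
# Torsion of odd order, and of order two
-/

set_option autoImplicit false
set_option linter.all false

open Polynomial IsDedekindDomain Pool.Agent.Y160.SE
open scoped Classical nonZeroDivisors

namespace Run7.h23.To

open Run7.h23.Lo
open Pool.Agent.TH115.GD (incl rs ak exists_restrict)

section eqv

variable {R : Type} [CommRing R] [IsDomain R]

theorem eqv_pow {I J : Ideal R} (h : Eqv I J) (n : ℕ) : Eqv (I ^ n) (J ^ n) := by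
  induction n with
  | zero => rw [pow_zero, pow_zero]; exact Pool.Agent.Y494.SE.Eqv.refl _
  | succ n ih => rw [pow_succ, pow_succ]; exact Pool.Agent.Y494.SE.Eqv.mul ih h

theorem top_pow (n : ℕ) : (⊤ : Ideal R) ^ n = ⊤ := by
  rw [← Ideal.one_eq_top, one_pow]

/-- Halving a class of odd order. -/
theorem half {I : Ideal R} {n : ℕ} (hn : Odd n) (h : Eqv (I ^ n) ⊤) (hI : I ≠ ⊥) :
    ∃ J : Ideal R, J ≠ ⊥ ∧ (∃ m, Odd m ∧ Eqv (J ^ m) ⊤) ∧ Eqv I (J * J) := by
  obtain ⟨m, rfl⟩ := hn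
  refine ⟨I ^ (m + 1), pow_ne_zero _ hI, ⟨2 * m + 1, ⟨m, rfl⟩, ?_⟩, ?_⟩
  · have h1 := eqv_pow h (m + 1)
    rw [top_pow, ← pow_mul, mul_comm, pow_mul] at h1
    exact h1
  · have h1 := Pool.Agent.Y494.SE.Eqv.mul (Pool.Agent.Y494.SE.Eqv.symm h)
      (Pool.Agent.Y494.SE.Eqv.refl I)
    rw [Ideal.top_mul] at h1
    have e : I ^ (2 * m + 1) * I = I ^ (m + 1) * I ^ (m + 1) := by
      rw [← pow_succ, ← pow_add]
      congr 1
      ring
    rw [e] at h1
    exact h1

theorem eqv_top {I : Ideal R} (hI : I ≠ ⊥) (h : Submodule.IsPrincipal I) : Eqv I ⊤ := by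
  obtain ⟨c, hc⟩ := h
  have hc' : I = Ideal.span {c} := hc
  refine ⟨1, c, one_ne_zero, ?_, ?_⟩
  · rintro rfl
    exact hI (by rw [hc', Ideal.span_singleton_eq_bot])
  · rw [Ideal.span_singleton_one, Ideal.top_mul, Ideal.mul_top, hc']

end eqv

section main

variable {O k K : Type} [CommRing O] [IsDomain O] [IsDiscreteValuationRing O] [Field k] [Field K]
  [Algebra O K] [IsFractionRing O K] {red : O →+* k} {π : O} {g : ℕ}
  {f A B E : O[X]} (D : Dat red π g f A B E)

include D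

/-- The classes in a set which is closed under halving are trivial. -/
theorem main_set (hG : Good 2 (-1 : K) (f.map (algebraMap O K)))
    {Q : Ideal (CR 2 (f.map (algebraMap O K))) → Prop}
    (hQ : ∀ I J : Ideal (CR 2 (f.map (algebraMap O K))), Q I → Eqv I J → Q J)
    (hdiv : ∀ I : Ideal (CR 2 (f.map (algebraMap O K))), I ≠ ⊥ → Q I →
      ∃ J : Ideal (CR 2 (f.map (algebraMap O K))), J ≠ ⊥ ∧ Q J ∧ Eqv I (J * J))
    {I : Ideal (CR 2 (f.map (algebraMap O K)))} (hI : I ≠ ⊥) (hI' : Q I) : Eqv I ⊤ := by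
  haveI := hyps.ring 2 K (-1) _ hG
  haveI := dom (D.oddK (K := K))
  have key : ∀ s, 1 ≤ s → ∀ (I : Ideal (CR 2 (f.map (algebraMap O K)))) (u : O[X]),
      Gd red B I u → Q I → Gs D I u s := by
    intro s
    induction s with
    | zero => intro h; omega
    | succ s ih =>
      intro _ I u hI hQI
      obtain ⟨J, hJ, hQJ, hIJ⟩ := hdiv I hI.ne hQI
      obtain ⟨I₁, u₁, h1, h2⟩ := exists_good D hG hJ
      have h3 := Pool.Agent.Y494.SE.Eqv.trans hIJ (Pool.Agent.Y494.SE.Eqv.mul h1 h1)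
      rcases Nat.eq_zero_or_pos s with rfl | hs
      · exact step1 D hG hI h2 h3
      · exact step2 D hG hI h2 h3 hs (ih hs I₁ u₁ h2 (hQ J I₁ hQJ h1))
  obtain ⟨I', u', h1, h2⟩ := exists_good D hG hI
  obtain ⟨a, ha, h3⟩ := last D hG h2 fun s hs => key s hs I' u' h2 (hQ I I' hI' h1)
  refine Pool.Agent.Y494.SE.Eqv.trans h1 ⟨1, jj K f a, one_ne_zero, ?_, ?_⟩
  · intro h0
    have : a = 0 := by
      apply jj_inj (K := K)
      rw [h0, map_zero]
    rw [this, map_zero] at ha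
    exact ha rfl
  · rw [h3, Ideal.mul_top, Ideal.span_singleton_one, Ideal.top_mul]

/-- No torsion of odd order. -/
theorem main_odd (hG : Good 2 (-1 : K) (f.map (algebraMap O K)))
    {I : Ideal (CR 2 (f.map (algebraMap O K)))} (hI : I ≠ ⊥) {n : ℕ} (hn : Odd n)
    (h : Eqv (I ^ n) ⊤) : Eqv I ⊤ := by
  haveI := hyps.ring 2 K (-1) _ hG
  haveI := dom (D.oddK (K := K))
  refine main_set D hG (Q := fun I => ∃ m, Odd m ∧ Eqv (I ^ m) ⊤) ?_ ?_ hI ⟨n, hn, h⟩
  · rintro I J ⟨m, hm, h1⟩ h2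
    exact ⟨m, hm, Pool.Agent.Y494.SE.Eqv.trans
      (eqv_pow (Pool.Agent.Y494.SE.Eqv.symm h2) m) h1⟩
  · rintro I hI ⟨m, hm, h1⟩
    exact half hm h1 hI

end main

section app

variable {R : Type} [CommRing R] [IsDedekindDomain R]

/-- No torsion of odd order. -/
theorem odd_tor {K : Type} [Field K] [Algebra R K] [IsFractionRing R K] (v : HeightOneSpectrum R)
    [Finite (R ⧸ v.asIdeal)] (h2 : (2 : R) ∈ v.asIdeal) {g : ℕ} {f : R[X]} (hm : f.Monic)
    (hd : f.natDegree = 2 * g + 1) (hR : RegAt v g f) {F : K[X]}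
    (hF : f.map (algebraMap R K) = F) (hG : Good 2 (-1 : K) F)
    {I : Ideal (CR 2 F)} (hI : I ≠ ⊥) {n : ℕ} (hn : Odd n) (h : Eqv (I ^ n) ⊤) : Eqv I ⊤ := by
  set O := Localization.AtPrime v.asIdeal with hO
  haveI : IsDiscreteValuationRing O :=
    IsLocalization.AtPrime.isDiscreteValuationRing_of_dedekind_domain R v.ne_bot O
  obtain ⟨π, A, B, E, D⟩ := dat_of_reg v h2 hm hd hR O
  have hM : v.asIdeal.primeCompl ≤ (R⁰).comap (RingHom.id R) :=
    v.asIdeal.primeCompl_le_nonZeroDivisors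
  letI : Algebra O K := (IsLocalization.map (M := v.asIdeal.primeCompl) (T := R⁰) K (RingHom.id R) hM :
    O →+* K).toAlgebra
  haveI : IsScalarTower R O K := IsScalarTower.of_algebraMap_eq' (by
    rw [RingHom.algebraMap_toAlgebra, IsLocalization.map_comp, RingHom.comp_id])
  haveI : IsFractionRing O K :=
    IsFractionRing.isFractionRing_of_isDomain_of_isLocalization v.asIdeal.primeCompl O K
  have h3 : (f.map (algebraMap R O)).map (algebraMap O K) = F := by
    rw [Polynomial.map_map, ← IsScalarTower.algebraMap_eq, hF]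
  subst h3
  exact main_odd D hG hI hn h

end app

section two

variable {K : Type} [Field K]

/-- No torsion of order two. -/
theorem no_two {F : K[X]} (hg : Good 2 (-1 : K) F) (hirr : Irreducible F) (x : Jac 2 F K)
    (hx : 2 • x = 0) : x = 0 := by
  obtain ⟨hd1, hd2, hd3⟩ := Pool.Agent.N615.JB.dbl K (SeparableClosure K) F hg
  have hinj := Pool.Agent.N655.JB.inj K (SeparableClosure K) F hg
  have hfix : ∀ (x : Jac 2 F K) (σ : SeparableClosure K ≃ₐ[K] SeparableClosure K),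
      jm 2 F (ak σ) (jm 2 F (incl K K (SeparableClosure K)) x) =
        jm 2 F (incl K K (SeparableClosure K)) x := by
    intro x σ
    rw [jm_jm]
    congr 1
    congr 1
    exact AlgHom.ext fun y => σ.commutes y
  apply hinj
  rw [map_zero]
  apply Pool.Agent.N615.JB.tor K (SeparableClosure K) F hg hirr
  · rw [hd1, ← map_nsmul, hx, map_zero]
  · exact hfix x

theorem two_tor {F : K[X]} (hG : Good 2 (-1 : K) F) (hirr : Irreducible F)
    (I : Ideal (CR 2 F)) (hI : I ≠ ⊥) (h : Eqv (I * I) ⊤) : Eqv I ⊤ := by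
  have e : F.map (algebraMap K K) = F := Polynomial.map_id
  have key : ∀ I : Ideal (CR 2 (F.map (algebraMap K K))), I ≠ ⊥ → Eqv (I * I) ⊤ → Eqv I ⊤ := by
    intro I hI h
    have hG' : Good 2 (-1 : K) (F.map (algebraMap K K)) := by rw [e]; exact hG
    haveI := hyps.ring 2 K (-1) _ hG'
    haveI := dom (f := F.map (algebraMap K K)) (by
      rw [e, ← Nat.coprime_two_left]
      exact hG.cop)
    obtain ⟨x, hx⟩ := cl_exists (Ω := K) hyps hG hI
    obtain ⟨t, ht⟩ := cl_exists (Ω := K) hyps hG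
      (I := (⊤ : Ideal (CR 2 (F.map (algebraMap K K))))) top_ne_bot
    have h1 := cl_mul (Ω := K) hyps hG hx hx
    have h2 := cl_mul (Ω := K) hyps hG ht ht
    have h3 : t + t = t := by
      refine (cl_eq_iff (Ω := K) hyps hG h2 ht).2 ?_
      rw [Ideal.top_mul]
      exact Pool.Agent.Y494.SE.Eqv.refl _
    have h4 : t = 0 := by
      have : t + t = t + 0 := by rw [h3, add_zero]
      exact add_left_cancel this
    have h5 : x + x = 0 := by
      rw [← h4]
      exact (cl_eq_iff (Ω := K) hyps hG h1 ht).2 h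
    have h6 : x = 0 := no_two hG hirr x (by rw [two_nsmul, h5])
    refine (cl_eq_iff (Ω := K) hyps hG hx ht).1 ?_
    rw [h6, h4]
  rw [e] at key
  exact key I hI h

/-- No torsion at all. -/
theorem all_tor {F : K[X]} (hG : Good 2 (-1 : K) F) (hirr : Irreducible F)
    (hodd : ∀ I : Ideal (CR 2 F), I ≠ ⊥ → ∀ n, Odd n → Eqv (I ^ n) ⊤ → Eqv I ⊤) (n : ℕ) :
    0 < n → ∀ I : Ideal (CR 2 F), I ≠ ⊥ → Eqv (I ^ n) ⊤ → Eqv I ⊤ := by
  haveI := hyps.ring 2 K (-1) _ hG
  haveI := dom (f := F) (by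
    rw [← Nat.coprime_two_left]
    exact hG.cop)
  induction n using Nat.strong_induction_on with
  | _ n ih =>
    intro hn I hI h
    rcases Nat.even_or_odd n with he | ho
    · obtain ⟨m, rfl⟩ := he
      rw [pow_add] at h
      exact ih m (by omega) (by omega) I hI
        (two_tor hG hirr (I ^ m) (pow_ne_zero _ hI) h)
    · exact hodd I hI n ho h

end two

end Run7.h23.To
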