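import Pool.Agent.Run7.h23.To.Loc
import Pool.Agent.Run7.h23.Gn.Main2
import Pool.Agent.Run7.h23.Gn.Reg

/-!
# Torsion over number fields
-/

set_option autoImplicit false
set_option linter.all false

open Polynomial IsDedekindDomain NumberField
open scoped Classical

namespace Run7.h23.To

open Pool.Agent.Y160.SE Run7.h23.Lo Run7.h23.Gn Pool.Agent.N783.PF
open Pool.Agent.N874.JM (exists_field)
open Pool.Agent.N352.PJ (dd)
open Pool.Agent.N99.PF (ht_card)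

theorem sep_scale {K : Type} [Field K] [CharZero K] {p : K[X]} (hp : p.Separable)
    (h0 : 0 < p.natDegree) {r : K} (hr : r ≠ 0) : (p.scaleRoots r).Separable := by
  have hd : (derivative p).natDegree = p.natDegree - 1 := natDegree_derivative p
  have e : derivative (p.scaleRoots r) = (derivative p).scaleRoots r := by
    ext i
    rw [coeff_derivative, coeff_scaleRoots, coeff_scaleRoots, coeff_derivative, hd]
    have : p.natDegree - (i + 1) = p.natDegree - 1 - i := by omega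
    rw [this]
    ring
  rw [Separable, e]
  exact isCoprime_scaleRoots _ _ _ (isUnit_iff_ne_zero.2 hr) hp

/-- A polynomial irreducible over `K` is irreducible over an extension of coprime degree. -/
theorem irr_cop {K M : Type} [Field K] [Field M] [Algebra K M] [FiniteDimensional K M]
    {f : K[X]} (h : Irreducible f) (hm : f.Monic)
    (hc : Nat.Coprime f.natDegree (Module.finrank K M)) : Irreducible (f.map (algebraMap K M)) := by
  have hnu : ¬ IsUnit (f.map (algebraMap K M)) := by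
    intro hu
    have h1 := natDegree_eq_zero_of_isUnit hu
    rw [hm.natDegree_map] at h1
    exact absurd h.natDegree_pos (by omega)
  obtain ⟨p, hpm, hpi, hpd⟩ := exists_monic_irreducible_factor _ hnu
  obtain ⟨Ω, instF, instA, t, ht, hr, htop, hfin, hmin⟩ := exists_field hpi hpm
  letI : Algebra K Ω := ((algebraMap M Ω).comp (algebraMap K M)).toAlgebra
  haveI : IsScalarTower K M Ω := IsScalarTower.of_algebraMap_eq fun x => rfl
  haveI : FiniteDimensional K Ω := FiniteDimensional.trans K M Ω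
  have h1 : aeval t f = 0 := by
    obtain ⟨q, hq⟩ := hpd
    have h2 := congrArg (aeval t) hq
    rw [map_mul, ht, zero_mul, aeval_map_algebraMap] at h2
    exact h2
  have h2 : minpoly K t = f := (minpoly.eq_of_irreducible_of_monic h h1 hm).symm
  have h3 : (minpoly K t).natDegree ∣ Module.finrank K Ω :=
    minpoly.degree_dvd (Algebra.IsIntegral.isIntegral t)
  rw [h2, ← Module.finrank_mul_finrank K M Ω, hr] at h3
  have h4 : f.natDegree ∣ p.natDegree := hc.dvd_of_dvd_mul_left h3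
  have h5 : f.natDegree ≤ p.natDegree := Nat.le_of_dvd hpi.natDegree_pos h4
  have h6 : f.map (algebraMap K M) = p := by
    refine eq_of_monic_of_dvd_of_natDegree_le hpm (hm.map _) hpd ?_
    rw [hm.natDegree_map]
    exact h5
  rw [h6]
  exact hpi

section nf

variable {F K : Type} [Field F] [NumberField F] [Field K] [NumberField K] [Algebra F K]

/-- Irreducible over `K`, from a prime with a residue degree prime to the degree. -/
theorem irr_over {f : (𝓞 F)[X]} (hm : f.Monic) {v : HeightOneSpectrum (𝓞 F)}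
    (hi : Irreducible (rd v.asIdeal f)) {w : HeightOneSpectrum (𝓞 K)}
    (hvw : v.asIdeal.map (algebraMap (𝓞 F) (𝓞 K)) ≤ w.asIdeal) {d : ℕ}
    (hd : Nat.card (𝓞 K ⧸ w.asIdeal) = Nat.card (𝓞 F ⧸ v.asIdeal) ^ d)
    (hc : Nat.Coprime d f.natDegree) :
    Irreducible ((f.map (algebraMap (𝓞 F) (𝓞 K))).map (algebraMap (𝓞 K) K)) := by
  haveI := v.isMaximal
  haveI := w.isMaximal
  letI : Field (𝓞 F ⧸ v.asIdeal) := Ideal.Quotient.field _
  letI : Field (𝓞 K ⧸ w.asIdeal) := Ideal.Quotient.field _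
  haveI : Finite (𝓞 F ⧸ v.asIdeal) := Ideal.finiteQuotientOfFreeOfNeBot v.asIdeal v.ne_bot
  haveI : Finite (𝓞 K ⧸ w.asIdeal) := Ideal.finiteQuotientOfFreeOfNeBot w.asIdeal w.ne_bot
  letI alg : Algebra (𝓞 F ⧸ v.asIdeal) (𝓞 K ⧸ w.asIdeal) :=
    (Ideal.quotientMap w.asIdeal (algebraMap (𝓞 F) (𝓞 K)) (Ideal.map_le_iff_le_comap.1 hvw)).toAlgebra
  haveI : FiniteDimensional (𝓞 F ⧸ v.asIdeal) (𝓞 K ⧸ w.asIdeal) := Module.Finite.of_finite
  have h1 : Nat.card (𝓞 K ⧸ w.asIdeal) = Nat.card (𝓞 F ⧸ v.asIdeal) ^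
      Module.finrank (𝓞 F ⧸ v.asIdeal) (𝓞 K ⧸ w.asIdeal) := Module.natCard_eq_pow_finrank
  have h2 : Module.finrank (𝓞 F ⧸ v.asIdeal) (𝓞 K ⧸ w.asIdeal) = d := by
    rw [hd] at h1
    exact (Nat.pow_right_injective (Finite.one_lt_card (α := 𝓞 F ⧸ v.asIdeal)) h1).symm
  have hm' : (rd v.asIdeal f).Monic := hm.map _
  have h3 := irr_cop (M := 𝓞 K ⧸ w.asIdeal) hi hm' (by
    rw [h2, hm.natDegree_map]
    exact hc.symm)
  have h4 : (rd v.asIdeal f).map (algebraMap (𝓞 F ⧸ v.asIdeal) (𝓞 K ⧸ w.asIdeal)) =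
      (f.map (algebraMap (𝓞 F) (𝓞 K))).map (Ideal.Quotient.mk w.asIdeal) := by
    rw [Polynomial.map_map, Polynomial.map_map]
    congr 1
  rw [h4] at h3
  have h5 : Irreducible (f.map (algebraMap (𝓞 F) (𝓞 K))) :=
    (hm.map _).irreducible_of_irreducible_map _ _ h3
  exact ((hm.map _).irreducible_iff_irreducible_map_fraction_map (K := K)).1 h5

/-- No torsion of odd order over number fields. -/
theorem nf_odd {g : ℕ} {f : (𝓞 F)[X]} (hm : f.Monic) (hd : f.natDegree = 2 * g + 1)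
    (hs : (fF f).Separable) {v : HeightOneSpectrum (𝓞 F)} {w : HeightOneSpectrum (𝓞 K)}
    (h2 : (2 : 𝓞 F) ∈ v.asIdeal) (hvw : v.asIdeal.map (algebraMap (𝓞 F) (𝓞 K)) ≤ w.asIdeal)
    (hun : ¬ v.asIdeal.map (algebraMap (𝓞 F) (𝓞 K)) ≤ w.asIdeal ^ 2) (hR : RegAt v g f)
    {D : 𝓞 K} (hD : D - 1 ∈ w.asIdeal ^ 2) {P : K[X]}
    (hP : ((f.map (algebraMap (𝓞 F) (𝓞 K))).map (algebraMap (𝓞 K) K)).scaleRoots (D : K) = P) :
    D ≠ 0 ∧ Good 2 (-1 : K) P ∧ ∀ I : Ideal (CR 2 P), I ≠ ⊥ → ∀ n, Odd n → Eqv (I ^ n) ⊤ →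
      Eqv I ⊤ := by
  have hD0 : D ≠ 0 := by
    rintro rfl
    have h3 : (1 : 𝓞 K) ∈ w.asIdeal := by
      have := Ideal.pow_le_self two_ne_zero hD
      have h4 := w.asIdeal.neg_mem this
      simpa using h4
    exact w.isPrime.ne_top ((Ideal.eq_top_iff_one _).2 h3)
  have hDK : (D : K) ≠ 0 := by exact_mod_cast hD0
  have hmK : (f.map (algebraMap (𝓞 F) (𝓞 K))).Monic := hm.map _
  have hdK : (f.map (algebraMap (𝓞 F) (𝓞 K))).natDegree = 2 * g + 1 := by rw [hm.natDegree_map, hd]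
  have e1 : (f.map (algebraMap (𝓞 F) (𝓞 K))).map (algebraMap (𝓞 K) K) =
      (fF f).map (algebraMap F K) := by
    rw [fF, Polynomial.map_map, Polynomial.map_map]
    congr 1
  have hPs : P.Separable := by
    rw [← hP]
    refine sep_scale ?_ ?_ hDK
    · rw [e1]; exact hs.map
    · rw [hmK.natDegree_map, hdK]; omega
  have hPm : P.Monic := by
    rw [← hP]
    exact (monic_scaleRoots_iff _).2 (hmK.map _)
  have hPd : P.natDegree = 2 * g + 1 := by
    rw [← hP, natDegree_scaleRoots, hmK.natDegree_map, hdK]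
  have hG : Good 2 (-1 : K) P :=
    ⟨Nat.prime_two, IsPrimitiveRoot.neg_one 0 (by norm_num), hPm, hPs,
      (Nat.coprime_two_left).2 (by rw [hPd]; exact odd_two_mul_add_one g)⟩
  refine ⟨hD0, hG, fun I hI n hn h => ?_⟩
  have h3 := reg_scale (reg_over hvw hun hR) hD
  haveI : Finite (𝓞 K ⧸ w.asIdeal) := Ideal.finiteQuotientOfFreeOfNeBot w.asIdeal w.ne_bot
  have h2w : (2 : 𝓞 K) ∈ w.asIdeal := by
    have := hvw (Ideal.mem_map_of_mem (algebraMap (𝓞 F) (𝓞 K)) h2)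
    rwa [map_ofNat] at this
  have h4 : ((f.map (algebraMap (𝓞 F) (𝓞 K))).scaleRoots D).map (algebraMap (𝓞 K) K) = P := by
    rw [map_scaleRoots, hP]
    rw [hmK.leadingCoeff, map_one]
    exact one_ne_zero
  exact odd_tor w h2w ((monic_scaleRoots_iff _).2 hmK) (by rw [natDegree_scaleRoots, hdK]) h3 h4 hG
    hI hn h

end nf

/-- A positive proportion. -/
theorem count (F : Type) [Field F] [NumberField F] (g : ℕ) (hg : 1 ≤ g)
    (T : Finset (HeightOneSpectrum (𝓞 F))) :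
    ∃ c : ℝ, 0 < c ∧ ∃ B₀ : ℕ, ∀ B ≥ B₀,
      {f : (𝓞 F)[X] | Ht g B f}.Finite ∧ c * ({f : (𝓞 F)[X] | Ht g B f}.ncard : ℝ) ≤
        ({f : (𝓞 F)[X] | Ht g B f ∧ (∀ v ∈ T, Irreducible (rd v.asIdeal f)) ∧
          ∀ v : HeightOneSpectrum (𝓞 F), (2 : 𝓞 F) ∈ v.asIdeal →
            Irreducible (rd v.asIdeal f) ∧ RegAt v g f}.ncard : ℝ) := by
  obtain ⟨K₁, hK₁⟩ : ∃ K₁ : ℕ, ∀ v ∈ T, ∃ p : ℕ, p.Prime ∧ p ≤ K₁ ∧ (p : 𝓞 F) ∈ v.asIdeal := by
    have h1 : ∀ v : HeightOneSpectrum (𝓞 F), ∃ p : ℕ, p.Prime ∧ (p : 𝓞 F) ∈ v.asIdeal := fun v =>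
      Pool.Agent.N891.PQ.exists_below v
    choose p hp using h1
    refine ⟨T.sup p, fun v hv => ⟨p v, (hp v).1, Finset.le_sup (f := p) hv, (hp v).2⟩⟩
  obtain ⟨W, f₁, hKW, hf₁, hpW, hirrW, ⟨hfour, hreg⟩, c, hc, hfam⟩ := famI2 F g hg K₁
  have hTW : ∀ v ∈ T, (W : 𝓞 F) ∈ v.asIdeal := by
    intro v hv
    obtain ⟨p, hp, hle, hm⟩ := hK₁ v hv
    obtain ⟨k, hk⟩ := hpW p hp hle
    rw [hk, Nat.cast_mul]
    exact Ideal.mul_mem_right _ _ hm
  have h2W : ∀ v : HeightOneSpectrum (𝓞 F), (2 : 𝓞 F) ∈ v.asIdeal → (W : 𝓞 F) ∈ v.asIdeal := by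
    intro v hv
    obtain ⟨k, hk⟩ := hfour
    have e : ((W : ℕ) : 𝓞 F) = 2 * (2 * k) := by rw [hk]; push_cast; ring
    rw [e]
    exact Ideal.mul_mem_right _ _ hv
  obtain ⟨-, Cp, hCp, -, hpt⟩ := Pool.Agent.N490.PF.pts F
  obtain ⟨B₀, hB₀⟩ := hfam ∅ (fun _ => ⊥) (fun _ => 0) (fun _ => 0) (fun q hq => absurd hq (by simp))
  refine ⟨c / (2 * Cp) ^ (2 * g), by positivity, max B₀ 1, fun B hB => ?_⟩
  have hB0 : B₀ ≤ B := (le_max_left _ _).trans hB
  have hB1 : 1 ≤ B := (le_max_right _ _).trans hB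
  obtain ⟨hfin, hle⟩ := ht_card hCp hpt g B hB1
  refine ⟨hfin, ?_⟩
  have h1 := hB₀ B hB0
  have e0 : (((∏ q ∈ (∅ : Finset ℕ), q ^ (2 * g)) ^ Module.finrank ℚ F : ℕ) : ℝ) = 1 := by simp
  rw [e0, one_mul] at h1
  have h2 : {f : (𝓞 F)[X] | Fam g B W f₁ ∅ (fun _ => 0) f} ⊆
      {f : (𝓞 F)[X] | Ht g B f ∧ (∀ v ∈ T, Irreducible (rd v.asIdeal f)) ∧
          ∀ v : HeightOneSpectrum (𝓞 F), (2 : 𝓞 F) ∈ v.asIdeal →
            Irreducible (rd v.asIdeal f) ∧ RegAt v g f} := by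
    intro f hf
    have hirr : ∀ v : HeightOneSpectrum (𝓞 F), (W : 𝓞 F) ∈ v.asIdeal →
        Irreducible (rd v.asIdeal f) := by
      intro v hv
      have h3 := Pool.Agent.N78.PF.rd_eq (Pool.Agent.N78.PF.sp_le hv) hf.one
      rw [h3]
      exact hirrW v hv
    refine ⟨hf.ht, fun v hv => hirr v (hTW v hv), fun v hv => ⟨hirr v (h2W v hv), ?_⟩⟩
    refine reg_congr (hreg v hv) fun j => ?_
    have h4v : (4 : 𝓞 F) ∈ v.asIdeal ^ 2 := by
      have e : (4 : 𝓞 F) = 2 ^ 2 := by norm_num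
      rw [e]
      exact Ideal.pow_mem_pow hv 2
    have h5 := hf.one j
    rw [sp, Ideal.mem_span_singleton] at h5
    obtain ⟨a, ha⟩ := h5
    obtain ⟨b, hb⟩ := hfour
    have e : f.coeff j - f₁.coeff j = (b * a) * 4 := by
      rw [ha, hb]; push_cast; ring
    rw [e]
    exact Ideal.mul_mem_left _ _ h4v
  have h3 := Set.ncard_le_ncard h2 (hfin.subset fun f hf => hf.1)
  calc c / (2 * Cp) ^ (2 * g) * ({f : (𝓞 F)[X] | Ht g B f}.ncard : ℝ)
      ≤ c / (2 * Cp) ^ (2 * g) * ((2 * Cp) ^ (2 * g) * (B : ℝ) ^ (Module.finrank ℚ F * dd g)) :=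
        mul_le_mul_of_nonneg_left hle (by positivity)
    _ = c * (B : ℝ) ^ (Module.finrank ℚ F * dd g) := by field_simp
    _ ≤ _ := h1
    _ ≤ _ := by exact_mod_cast h3

end Run7.h23.To
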